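import Pool.Agent.Lib.MP_30aac3_nt.Final

/-!
Variation of the canonical height in one-parameter families of morphisms.
-/

open Pool.Agent.VCH

/-- Let `L` be the function field of a smooth projective curve over the field `Qb` of algebraic
numbers, let `F` be the coordinate forms of an endomorphism of degree `d ≥ 2` of projective
space `ℙ^N` over `L`, and let `P` be a point of `ℙ^N (L)`.

First part: the limit divisor `E` exists, with real coefficients and finite support, and
`ĥ_{F_t}(P_t) = h_E(t) + O(1)` uniformly in all places `t` at which `F` specialises to a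
morphism. The divisor `E` is the limit of the divisors `- d^(-n) min_i ord (F^n(P))_i`, all
supported in one finite set; for each hyperplane `ℓ = 0` this divisor is
`d^(-n) (f^n ∘ P)^* {ℓ = 0} - d^(-n) div (ℓ (F^n(P)))`.

Second part: for a totally invariant hyperplane `ℓ = 0` which does not contain `P`, the limit of
the divisors `d^(-n) (f^n ∘ P)^* {ℓ = 0}` exists, and the same estimate holds for it. -/
theorem Pool.Agent.Results.MP_30aac3_nt.HeightVariation.result
    {L : Type} [Field L] [Algebra Qb L] (hL : IsFunField Qb L)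
    {N d : ℕ} (hd : 2 ≤ d) (F : Fin (N + 1) → MvPolynomial (Fin (N + 1)) L)
    (hF : ∀ i, (F i).IsHomogeneous d)
    (hF0 : ∀ y : Fin (N + 1) → AlgebraicClosure L,
      (∀ i, MvPolynomial.aeval y (F i) = 0) → y = 0)
    (P : Fin (N + 1) → L) (hP : P ≠ 0) :
    (∃ (S : Finset (Place Qb L)) (E : Place Qb L →₀ ℝ),
      (∀ s ∉ S, ∀ n, s.ordv ((pmap F)^[n] P) = 0) ∧
      (∀ s : Place Qb L,
        Filter.Tendsto (fun n => (-(s.ordv ((pmap F)^[n] P) : ℝ)) / (d : ℝ) ^ n) Filter.atTop
          (nhds (E s))) ∧
      VariesAs d F P E) ∧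
    ∀ (ℓ : Fin (N + 1) → Qb) (c : L), c ≠ 0 →
      ∑ i, MvPolynomial.C (algebraMap Qb L (ℓ i)) * F i =
        MvPolynomial.C c * (∑ i, MvPolynomial.C (algebraMap Qb L (ℓ i)) * MvPolynomial.X i) ^ d →
      ∑ i, algebraMap Qb L (ℓ i) * P i ≠ 0 →
      ∃ E : Place Qb L →₀ ℝ,
        (∀ s : Place Qb L,
          Filter.Tendsto (fun n => (pullDiv s ((pmap F)^[n] P) ℓ : ℝ) / (d : ℝ) ^ n) Filter.atTop
            (nhds (E s))) ∧
        VariesAs d F P E :=
  main_theorem hL hd hF hF0 hP
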